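import Pool.Agent.V5helper12.FR.L5

/-!
# JobL, last part: the linear relations
-/

set_option autoImplicit false

namespace Pool.Agent.V5helper12.FR

open Pool.Agent.V5helper40.FR
open HahnSeries
open Pool.Agent.R322.QD (e2 e4 e6 th)
open scoped LaurentPolynomial

noncomputable section

theorem theta_const : PowerSeries.constantCoeff thetaNum =
    (LaurentPolynomial.T (-1) + LaurentPolynomial.T 1 : ℤ[T;T⁻¹]) := by
  rw [← PowerSeries.coeff_zero_eq_constantCoeff_apply, thetaNum, PowerSeries.coeff_mk]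
  have : (Finset.Icc (-((0 : ℕ) : ℤ) - 1) ((0 : ℕ) : ℤ)).filter
      (fun m : ℤ => m * (m + 1) = 2 * ((0 : ℕ) : ℤ)) = {-1, 0} := by decide +kernel
  rw [this, Finset.sum_pair (by norm_num)]
  norm_num

theorem euler_const : PowerSeries.constantCoeff (eulerProd ℤ[T;T⁻¹]) = 1 := by
  rw [← PowerSeries.coeff_zero_eq_constantCoeff_apply, eulerProd, PowerSeries.coeff_mk]
  simp

theorem six : (LaurentPolynomial.T (-1) + LaurentPolynomial.T 1 : ℤ[T;T⁻¹]) ^ 6 =
    LaurentPolynomial.T (-6) + (6 : ℤ) • LaurentPolynomial.T (-4)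
      + (15 : ℤ) • LaurentPolynomial.T (-2)
      + (20 : ℤ) • LaurentPolynomial.T 0 + (15 : ℤ) • LaurentPolynomial.T 2
      + (6 : ℤ) • LaurentPolynomial.T 4 + LaurentPolynomial.T 6 := by
  have h : ∀ (a b : ℤ) (c : ℤ), a + b = c →
      (LaurentPolynomial.T c : ℤ[T;T⁻¹]) = LaurentPolynomial.T a * LaurentPolynomial.T b := by
    intro a b c h
    rw [← LaurentPolynomial.T_add, h]
  have h1 : (LaurentPolynomial.T (-1) * LaurentPolynomial.T 1 : ℤ[T;T⁻¹]) = 1 := by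
    rw [← LaurentPolynomial.T_add]; simp
  rw [LaurentPolynomial.T_zero, h (-2) (-4) (-6) (by norm_num), h (-2) (-2) (-4) (by norm_num),
    h (-1) (-1) (-2) (by norm_num), h 2 4 6 (by norm_num), h 2 2 4 (by norm_num),
    h 1 1 2 (by norm_num)]
  generalize (LaurentPolynomial.T (-1) : ℤ[T;T⁻¹]) = a at h1 ⊢
  generalize (LaurentPolynomial.T 1 : ℤ[T;T⁻¹]) = b at h1 ⊢
  simp only [zsmul_eq_mul]
  push_cast
  linear_combination (6 * a ^ 4 + 15 * a ^ 2 * (a * b + 1) + 20 * ((a * b) ^ 2 + a * b + 1)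
    + 15 * b ^ 2 * (a * b + 1) + 6 * b ^ 4) * h1

theorem cpsi_zero (β : ℤ) : cpsi 6 β 0 =
    ((LaurentPolynomial.T (-1) + LaurentPolynomial.T 1 : ℤ[T;T⁻¹]) ^ 6).coeff (2 * β) := by
  rw [cpsi, if_neg (by norm_num)]
  congr 2
  rw [Int.toNat_zero, PowerSeries.coeff_zero_eq_constantCoeff_apply, F, map_mul, map_pow,
    PowerSeries.constantCoeff_invOfUnit, theta_const]
  simp

theorem cpsi00 : cpsi 6 0 0 = 20 := by
  rw [cpsi_zero, six]
  simp only [AddMonoidAlgebra.coeff_add, AddMonoidAlgebra.coeff_smul, Finsupp.add_apply,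
    Finsupp.smul_apply, LaurentPolynomial.T_apply]
  norm_num

theorem cpsi10 : cpsi 6 1 0 = 15 := by
  rw [cpsi_zero, six]
  simp only [AddMonoidAlgebra.coeff_add, AddMonoidAlgebra.coeff_smul, Finsupp.add_apply,
    Finsupp.smul_apply, LaurentPolynomial.T_apply]
  norm_num

theorem cpsi20 : cpsi 6 2 0 = 6 := by
  rw [cpsi_zero, six]
  simp only [AddMonoidAlgebra.coeff_add, AddMonoidAlgebra.coeff_smul, Finsupp.add_apply,
    Finsupp.smul_apply, LaurentPolynomial.T_apply]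
  norm_num

theorem cpsi30 : cpsi 6 3 0 = 1 := by
  rw [cpsi_zero, six]
  simp only [AddMonoidAlgebra.coeff_add, AddMonoidAlgebra.coeff_smul, Finsupp.add_apply,
    Finsupp.smul_apply, LaurentPolynomial.T_apply]
  norm_num

theorem gP_coeff (β : ℤ) : (gP β).coeff 0 = (cpsi 6 β 0 : ℂ) := by
  rw [gP, PowerSeries.coeff_mk]; simp

/-- from one series to a multiple of another -/
theorem rel_of {k c0 c1 c2 : ℤ} {f g : ℕ → K} (hf : Sol k c0 c1 c2 f) (hg : Sol k c0 c1 c2 g)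
    (N a c : ℤ) (hN : N ≠ 0) (m1 : ℤ) (r0 : ℕ) (P W : PowerSeries ℂ)
    (hf0 : f 0 = QQ (m1 + 24 * r0) P) (hg0 : N * g 0 = QQ m1 W)
    (hroot : ∀ r : ℕ, ind k c0 c1 c2 (m1 + 24 * r) = 0 → r = r0)
    (hc : N * a * P.coeff 0 = c * W.coeff r0) (i : ℕ) (hi : i < 4) : a * f i = c * g i := by
  have h1 := Sol.sub_smul hf hg (N * a) (N * c)
  have h0 : (fun i => ((N * a : ℤ) : K) * f i - ((N * c : ℤ) : K) * g i) 0 =
      QQ m1 (((N * a : ℤ) : PowerSeries ℂ) * (PowerSeries.X ^ r0 * P)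
        - (c : PowerSeries ℂ) * W) := by
    show ((N * a : ℤ) : K) * f 0 - ((N * c : ℤ) : K) * g 0 = _
    have e : ((N * c : ℤ) : K) * g 0 = c * (N * g 0) := by push_cast; ring
    rw [e, hg0, hf0, ← QQ_shift, ← QQ_sub, QQ, QQ, QQ, QQ,
      map_mul ofQ ((N * a : ℤ) : PowerSeries ℂ),
      map_mul ofQ (c : PowerSeries ℂ), map_intCast, map_intCast]
    ring
  have hu := uniq h1 m1 _ h0 r0 hroot (by
    rw [map_sub, ← map_intCast (PowerSeries.C : ℂ →+* PowerSeries ℂ) (N * a),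
      ← map_intCast (PowerSeries.C : ℂ →+* PowerSeries ℂ) c, PowerSeries.coeff_C_mul,
      PowerSeries.coeff_C_mul, PowerSeries.coeff_X_pow_mul', if_pos le_rfl, Nat.sub_self, ← hc]
    push_cast
    ring)
  have h2 := Sol.zero h1 hu i hi
  have hN' : (N : K) ≠ 0 := by exact_mod_cast hN
  have h3 : ((N * a : ℤ) : K) * f i - ((N * c : ℤ) : K) * g i = 0 := h2
  push_cast at h3
  apply mul_left_cancel₀ hN'
  linear_combination h3

theorem roots1 (m : ℤ) (h : ind (-1) 3575 (-752) 58 m = 0) : m = 12 ∨ m = 10 ∨ m = 4 ∨ m = -6 := by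
  have : (m - 12) * ((m - 10) * ((m - 4) * (m + 6))) = 0 := by
    rw [← h, ind]; ring
  rcases mul_eq_zero.1 this with h | h
  · left; omega
  rcases mul_eq_zero.1 h with h | h
  · right; left; omega
  rcases mul_eq_zero.1 h with h | h
  · right; right; left; omega
  · right; right; right; omega

theorem roots5 (m : ℤ) (h : ind 5 119 (-176) 58 m = 0) : m = 4 ∨ m = 6 ∨ m = 12 ∨ m = 22 := by
  have : (m - 4) * ((m - 6) * ((m - 12) * (m - 22))) = 0 := by
    rw [← h, ind]; ring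
  rcases mul_eq_zero.1 this with h | h
  · left; omega
  rcases mul_eq_zero.1 h with h | h
  · right; left; omega
  rcases mul_eq_zero.1 h with h | h
  · right; right; left; omega
  · right; right; right; omega

/-- (c), one case -/
theorem partC_case (hR : Rels) (hT3 : JobT3) (hT4 : JobT4) (β j : ℤ) (hβ0 : 0 ≤ β) (hβ3 : β ≤ 3)
    (hj0 : 0 ≤ j) (hj3 : j ≤ 3) (a : ℕ) (ha : (a : ℤ) = 2 * j ^ 2) (b c g : ℤ)
    (hb : (thQ a j).coeff 0 = (b : ℂ)) (hg : cpsi 6 β 0 = g) (r0 : ℕ) (hr : r0 < 6)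
    (hm : 12 - 2 * β ^ 2 = 7 * (4 + a) - 24 * (6 : ℕ) + 24 * r0)
    (hroot : ∀ r : ℕ, ind (-1) 3575 (-752) 58 (7 * (4 + a) - 24 * (6 : ℕ) + 24 * r) = 0 → r = r0)
    (hc : 1920 * 1 * g = c * (WL pP 6 3 (cs 5 (4 + a) b)).getD r0 0) (i : ℕ) (hi : i < 4) :
    fG β i = c * RR pP 6 1920 (-1) (fT j) i := by
  have hS := partA hR hT3 j hj0 hj3
  have key := rel_of (partB hR hT3 hT4 β hβ0 hβ3)
    (rows_sol hR pP 6 1920 (-1) 5 (-1) 119 (-176) 58 3575 (-752) 58 (by norm_num) (by norm_num)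
      chkP (fT j) hS) 1920 1 c (by norm_num) (7 * (4 + a) - 24 * (6 : ℕ)) r0
    (gP β) (WW pP 6 3 (pd 5 (4 + a) (PE ^ 4 * thQ a j))) (by rw [← hm]; exact G_QQ β)
    (RR_QQ hR pP 6 3 1920 (-1) (by norm_num) (by norm_num) (fT j) (4 + a) _
      (fun i => fT_QQ a j ha hj0 hj3 i)) hroot (by
    have h1 := (cg_WW hR pP 6 3 (pd 5 (4 + a) (PE ^ 4 * thQ a j)) (cs 5 (4 + a) b)
      (fun i => pd_coeff 5 (4 + a) b _ (by rw [PE4_coeff, hb]) i)).coeff r0 hr
    rw [h1, gP_coeff, hg]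
    exact_mod_cast hc) i hi
  rw [← key]
  push_cast
  ring

/-- (d), one case -/
theorem partD_case (hR : Rels) (hT3 : JobT3) (hT4 : JobT4) (β j : ℤ) (hβ0 : 0 ≤ β) (hβ3 : β ≤ 3)
    (hj0 : 0 ≤ j) (hj3 : j ≤ 3) (a : ℕ) (ha : (a : ℤ) = 2 * j ^ 2) (b c g : ℤ)
    (hb : (thQ a j).coeff 0 = (b : ℂ)) (hg : cpsi 6 β 0 = g) (r0 : ℕ) (hr : r0 < 6)
    (hm : (4 + a : ℤ) = 7 * (12 - 2 * β ^ 2) - 24 * (3 : ℕ) + 24 * r0)
    (hroot : ∀ r : ℕ, ind 5 119 (-176) 58 (7 * (12 - 2 * β ^ 2) - 24 * (3 : ℕ) + 24 * r) = 0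
      → r = r0)
    (hc : 2880 * c * b = 1 * (WL pQ 3 1 (cs (-1) (12 - 2 * β ^ 2) g)).getD r0 0) (i : ℕ)
    (hi : i < 4) : c * fT j i = RR pQ 3 2880 1 (fG β) i := by
  have hS := partB hR hT3 hT4 β hβ0 hβ3
  have key := rel_of (partA hR hT3 j hj0 hj3)
    (rows_sol hR pQ 3 2880 1 (-1) 5 3575 (-752) 58 119 (-176) 58 (by norm_num) (by norm_num)
      chkQ (fG β) hS) 2880 c 1 (by norm_num) (7 * (12 - 2 * β ^ 2) - 24 * (3 : ℕ)) r0
    (PE ^ 4 * thQ a j) (WW pQ 3 1 (pd (-1) (12 - 2 * β ^ 2) (gP β)))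
    (by rw [← hm]; exact fT_QQ a j ha hj0 hj3 0)
    (RR_QQ hR pQ 3 1 2880 1 (by norm_num) (by norm_num) (fG β) (12 - 2 * β ^ 2) _
      (fun i => fG_QQ β i)) hroot (by
    have h1 := (cg_WW hR pQ 3 1 (pd (-1) (12 - 2 * β ^ 2) (gP β)) (cs (-1) (12 - 2 * β ^ 2) g)
      (fun i => pd_coeff (-1) (12 - 2 * β ^ 2) g _ (by rw [gP_coeff, hg]) i)).coeff r0 hr
    rw [h1, PE4_coeff, hb]
    exact_mod_cast hc) i hi
  rw [key]
  push_cast
  ring

theorem partC (hR : Rels) (hT3 : JobT3) (hT4 : JobT4) (β : ℤ) (hβ0 : 0 ≤ β) (hβ3 : β ≤ 3)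
    (i : ℕ) (hi : i < 4) : fG β i = cb β * RR pP 6 1920 (-1) (fT (sg β)) i := by
  interval_cases β
  · exact partC_case hR hT3 hT4 0 2 (by norm_num) (by norm_num) (by norm_num) (by norm_num) 8
      (by norm_num) 1 (-2) 20 thQ2 cpsi00 3 (by norm_num) (by norm_num)
      (fun r hr => by rcases roots1 _ hr with h | h | h | h <;> push_cast at h <;> omega)
      (by decide +kernel) i hi
  · exact partC_case hR hT3 hT4 1 3 (by norm_num) (by norm_num) (by norm_num) (by norm_num) 18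
      (by norm_num) 2 (-1) 15 thQ3 cpsi10 0 (by norm_num) (by norm_num)
      (fun r hr => by rcases roots1 _ hr with h | h | h | h <;> push_cast at h <;> omega)
      (by decide +kernel) i hi
  · exact partC_case hR hT3 hT4 2 0 (by norm_num) (by norm_num) (by norm_num) (by norm_num) 0
      (by norm_num) 1 1 6 thQ0 cpsi20 5 (by norm_num) (by norm_num)
      (fun r hr => by rcases roots1 _ hr with h | h | h | h <;> push_cast at h <;> omega)
      (by decide +kernel) i hi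
  · exact partC_case hR hT3 hT4 3 1 (by norm_num) (by norm_num) (by norm_num) (by norm_num) 2
      (by norm_num) 1 2 1 thQ1 cpsi30 4 (by norm_num) (by norm_num)
      (fun r hr => by rcases roots1 _ hr with h | h | h | h <;> push_cast at h <;> omega)
      (by decide +kernel) i hi

theorem partD (hR : Rels) (hT3 : JobT3) (hT4 : JobT4) (β : ℤ) (hβ0 : 0 ≤ β) (hβ3 : β ≤ 3)
    (i : ℕ) (hi : i < 4) : cb β * fT (sg β) i = RR pQ 3 2880 1 (fG β) i := by
  interval_cases β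
  · exact partD_case hR hT3 hT4 0 2 (by norm_num) (by norm_num) (by norm_num) (by norm_num) 8
      (by norm_num) 1 (-2) 20 thQ2 cpsi00 0 (by norm_num) (by norm_num)
      (fun r hr => by rcases roots5 _ hr with h | h | h | h <;> push_cast at h <;> omega)
      (by decide +kernel) i hi
  · exact partD_case hR hT3 hT4 1 3 (by norm_num) (by norm_num) (by norm_num) (by norm_num) 18
      (by norm_num) 2 (-1) 15 thQ3 cpsi10 1 (by norm_num) (by norm_num)
      (fun r hr => by rcases roots5 _ hr with h | h | h | h <;> push_cast at h <;> omega)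
      (by decide +kernel) i hi
  · exact partD_case hR hT3 hT4 2 0 (by norm_num) (by norm_num) (by norm_num) (by norm_num) 0
      (by norm_num) 1 1 6 thQ0 cpsi20 2 (by norm_num) (by norm_num)
      (fun r hr => by rcases roots5 _ hr with h | h | h | h <;> push_cast at h <;> omega)
      (by decide +kernel) i hi
  · exact partD_case hR hT3 hT4 3 1 (by norm_num) (by norm_num) (by norm_num) (by norm_num) 2
      (by norm_num) 1 2 1 thQ1 cpsi30 5 (by norm_num) (by norm_num)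
      (fun r hr => by rcases roots5 _ hr with h | h | h | h <;> push_cast at h <;> omega)
      (by decide +kernel) i hi

/-- **JobL** -/
theorem l : JobL := fun hR _ hT3 hT4 =>
  ⟨fun j h0 h3 => partA hR hT3 j h0 h3, fun β h0 h3 => partB hR hT3 hT4 β h0 h3,
    fun β h0 h3 i hi => partC hR hT3 hT4 β h0 h3 i hi,
    fun β h0 h3 i hi => partD hR hT3 hT4 β h0 h3 i hi⟩

end

end Pool.Agent.V5helper12.FR
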