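import Pool.Agent.V5helper40.FR.Jobs2

/-!
# JobL, first part: the two differential equations
-/

set_option autoImplicit false

namespace Pool.Agent.V5helper12.FR

open Pool.Agent.V5helper40.FR
open HahnSeries
open Pool.Agent.R322.QD (e2 e4 e6 th)

noncomputable section

theorem its_zero (k : ℤ) (f : K) : its k f 0 = f := rfl

theorem its_succ (k : ℤ) (f : K) (n : ℕ) :
    its k f (n + 1) = dl (its k f n) - (k + 4 * n : ℤ) * E2 * its k f n := rfl

theorem its_eta (h : dl eta = E2 * eta) (f : K) (n : ℕ) :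
    its 5 (eta ^ 4 * f) n = eta ^ 4 * its 1 f n := by
  induction n with
  | zero => rfl
  | succ n ih =>
    rw [its_succ, its_succ, ih, dl_mul, dl_pow, h]
    push_cast
    ring

theorem sol_of_ode {k c0 c1 c2 : ℤ} {f : K}
    (h : its k f 4 = c2 * E4 * its k f 2 + c1 * E6 * its k f 1 + c0 * E4 ^ 2 * its k f 0) :
    Sol k c0 c1 c2 (its k f) := by
  refine ⟨?_, ?_, ?_, ?_⟩
  · rw [its_succ k f 0]; push_cast; ring
  · rw [its_succ k f 1]; push_cast; ring
  · rw [its_succ k f 2]; push_cast; ring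
  · have h3 := its_succ k f 3
    push_cast at h3
    rw [h] at h3
    linear_combination -h3

theorem ofP_DP (k : ℂ) (f : PowerSeries ℂ) :
    ofP (DP k f) = dl (ofP f) - C k * (E2 * ofP f) := by
  rw [DP, map_sub, map_mul, map_mul, ← dl_ofP, ← ofQ_eq, ofP_C]
  rfl

/-- the differential equation of `ϑ_j` -/
theorem theta_ode (hT : JobT3) (j : ℤ) (h0 : 0 ≤ j) (h3 : j ≤ 3) :
    its 1 (thK j) 4 = (58 : ℤ) * E4 * its 1 (thK j) 2 + (-176 : ℤ) * E6 * its 1 (thK j) 1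
      + (119 : ℤ) * E4 ^ 2 * its 1 (thK j) 0 := by
  have h := congrArg ofP (hT j h0 h3)
  have e : ∀ (a b : ℂ), a = b → (C a : K) = C b := fun a b h => by rw [h]
  have c1 : (C (1 : ℂ) : K) = 1 := map_one _
  have c5 : (C (5 : ℂ) : K) = 5 := map_ofNat (C : ℂ →+* K) 5
  have c9 : (C (9 : ℂ) : K) = 9 := map_ofNat (C : ℂ →+* K) 9
  have c13 : (C (13 : ℂ) : K) = 13 := map_ofNat (C : ℂ →+* K) 13
  have s1 : ofP (DP 1 (tht j)) = its 1 (thK j) 1 := by
    rw [ofP_DP, its_succ, its_zero, c1, thK]; push_cast; ring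
  have s2 : ofP (DP 5 (DP 1 (tht j))) = its 1 (thK j) 2 := by
    rw [ofP_DP, s1, its_succ _ _ 1, c5]; push_cast; ring
  have s3 : ofP (DP 9 (DP 5 (DP 1 (tht j)))) = its 1 (thK j) 3 := by
    rw [ofP_DP, s2, its_succ _ _ 2, c9]; push_cast; ring
  have s4 : ofP (DP 13 (DP 9 (DP 5 (DP 1 (tht j))))) = its 1 (thK j) 4 := by
    rw [ofP_DP, s3, its_succ _ _ 3, c13]; push_cast; ring
  rw [s4] at h
  rw [map_add, map_sub, map_mul, map_mul, map_mul, map_mul, map_mul, map_mul, map_pow, s1, s2,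
    map_ofNat, map_ofNat, map_ofNat, ← ofQ_eq, ← ofQ_eq] at h
  rw [h, its_zero, thK]
  show _ = (58 : ℤ) * ofQ e4 * its 1 (ofP (tht j)) 2 + (-176 : ℤ) * ofQ e6 * its 1 (ofP (tht j)) 1
      + (119 : ℤ) * ofQ e4 ^ 2 * ofP (tht j)
  push_cast
  ring

/-- (a) -/
theorem partA (hR : Rels) (hT : JobT3) (j : ℤ) (h0 : 0 ≤ j) (h3 : j ≤ 3) :
    Sol 5 119 (-176) 58 (fT j) := by
  refine sol_of_ode ?_
  have h := theta_ode hT j h0 h3
  rw [its_eta hR.deta, its_eta hR.deta, its_eta hR.deta, its_eta hR.deta, h]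
  push_cast
  ring

end

end Pool.Agent.V5helper12.FR
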