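import Pool.Agent.V5helper12.FR.L1

/-!
# JobL, second part: the differential equation of `G_β`
-/

set_option autoImplicit false

namespace Pool.Agent.V5helper12.FR

open Pool.Agent.V5helper40.FR
open HahnSeries
open Pool.Agent.R322.QD (e2 e4 e6 th)

noncomputable section

/-- derivatives of `G` -/
def gg (n : ℕ) (β : ℤ) : K := its (-1) (G β) n
/-- derivatives of `ϑ` -/
def tj (n : ℕ) (j : ℤ) : K := its 1 (thK j) n

theorem gg_succ (n : ℕ) (β : ℤ) : dl (gg n β) = gg (n + 1) β + (-1 + 4 * n) * E2 * gg n β := by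
  have h := its_succ (-1) (G β) n
  show dl (its (-1) (G β) n) = its (-1) (G β) (n + 1) + _ * E2 * its (-1) (G β) n
  rw [h]; push_cast; ring

theorem tj_succ (n : ℕ) (j : ℤ) : dl (tj n j) = tj (n + 1) j + (1 + 4 * n) * E2 * tj n j := by
  have h := its_succ 1 (thK j) n
  show dl (its 1 (thK j) n) = its 1 (thK j) (n + 1) + _ * E2 * its 1 (thK j) n
  rw [h]; push_cast; ring

/-- the pairings -/
def mm (i k : ℕ) : K := pair (gg k) (tj i)

theorem mm_rec (i k : ℕ) :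
    mm i (k + 1) = dl (mm i k) - (4 * i + 4 * k) * E2 * mm i k - mm (i + 1) k := by
  have h2 : dl (2 : K) = 0 := dl_ofNat 2
  simp only [mm, pair, dl_add, dl_sub, dl_mul, h2, gg_succ, tj_succ]
  ring

theorem mm_four (hT : JobT3) (k : ℕ) :
    mm 4 k = 58 * E4 * mm 2 k - 176 * E6 * mm 1 k + 119 * E4 ^ 2 * mm 0 k := by
  have h : ∀ j : ℤ, 0 ≤ j → j ≤ 3 →
      tj 4 j = 58 * E4 * tj 2 j - 176 * E6 * tj 1 j + 119 * E4 ^ 2 * tj 0 j := by
    intro j h0 h3
    have := theta_ode hT j h0 h3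
    show its 1 (thK j) 4 = 58 * E4 * its 1 (thK j) 2 - 176 * E6 * its 1 (thK j) 1
      + 119 * E4 ^ 2 * its 1 (thK j) 0
    rw [this]; push_cast; ring
  simp only [mm, pair]
  rw [h 0 (by norm_num) (by norm_num), h 1 (by norm_num) (by norm_num),
    h 2 (by norm_num) (by norm_num), h 3 (by norm_num) (by norm_num)]
  ring

theorem tj_zero (j : ℤ) : tj 0 j = thK j := rfl

theorem tj_one (j : ℤ) : tj 1 j = dl (thK j) - E2 * thK j := by
  have := tj_succ 0 j
  rw [tj_zero] at this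
  push_cast at this
  linear_combination -this

theorem tj_two (j : ℤ) :
    tj 2 j = dl (dl (thK j)) - 6 * E2 * dl (thK j) + (5 * E2 ^ 2 - dl E2) * thK j := by
  have := tj_succ 1 j
  rw [tj_one, dl_sub, dl_mul] at this
  push_cast at this
  linear_combination -this

theorem tj_three (j : ℤ) :
    tj 3 j = dl (dl (dl (thK j))) - 15 * E2 * dl (dl (thK j))
      + (59 * E2 ^ 2 - 7 * dl E2) * dl (thK j)
      + (19 * E2 * dl E2 - dl (dl E2) - 45 * E2 ^ 3) * thK j := by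
  have := tj_succ 2 j
  rw [tj_two, dl_add, dl_sub, dl_mul, dl_mul, dl_mul, dl_ofNat, dl_sub, dl_mul, dl_pow,
    dl_ofNat] at this
  push_cast at this
  linear_combination -this

theorem gg_zero : gg 0 = G := rfl

/-- `-5760 η¹²` -/
def kap : K := -5760 * eta ^ 12

theorem kap_ne : kap ≠ 0 := by
  have := eta_ne
  exact mul_ne_zero (by norm_num) (pow_ne_zero _ this)

theorem dl_kap (hR : Rels) : dl kap = 12 * E2 * kap := by
  rw [kap, dl_mul, dl_neg, dl_ofNat, dl_pow, hR.deta]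
  push_cast
  ring

section
variable (hR : Rels) (hT3 : JobT3) (hT4 : JobT4)
include hT4

theorem m00 : mm 0 0 = 0 := hT4.1

theorem m10 : mm 1 0 = 0 := by
  have h0 := hT4.1
  have h1 := hT4.2.1
  simp only [mm, pair, gg_zero, tj_one] at h0 h1 ⊢
  linear_combination h1 - E2 * h0

theorem m20 : mm 2 0 = 0 := by
  have h0 := hT4.1
  have h1 := hT4.2.1
  have h2 := hT4.2.2.1
  simp only [mm, pair, gg_zero, tj_two] at h0 h1 h2 ⊢
  linear_combination h2 - 6 * E2 * h1 + (5 * E2 ^ 2 - dl E2) * h0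

theorem m30 : mm 3 0 = kap := by
  have h0 := hT4.1
  have h1 := hT4.2.1
  have h2 := hT4.2.2.1
  have h3 := hT4.2.2.2
  simp only [mm, pair, gg_zero, tj_three, kap] at h0 h1 h2 h3 ⊢
  linear_combination h3 - 15 * E2 * h2 + (59 * E2 ^ 2 - 7 * dl E2) * h1
    + (19 * E2 * dl E2 - dl (dl E2) - 45 * E2 ^ 3) * h0

include hR hT3

theorem mvals :
    (mm 0 1 = 0 ∧ mm 1 1 = 0 ∧ mm 2 1 = -kap ∧ mm 3 1 = 0) ∧
    (mm 0 2 = 0 ∧ mm 1 2 = kap ∧ mm 2 2 = 0 ∧ mm 3 2 = 58 * E4 * kap) ∧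
    (mm 0 3 = -kap ∧ mm 1 3 = 0 ∧ mm 2 3 = -58 * E4 * kap ∧ mm 3 3 = -288 * E6 * kap) ∧
    (mm 0 4 = 0 ∧ mm 1 4 = 58 * E4 * kap ∧ mm 2 4 = 752 * E6 * kap ∧
      mm 3 4 = 6939 * E4 ^ 2 * kap) := by
  have a0 := m00 hT4
  have a1 := m10 hT4
  have a2 := m20 hT4
  have a3 := m30 hT4
  have a4 := mm_four hT3 0
  rw [a0, a1, a2] at a4
  have dk := dl_kap hR
  have b0 := mm_rec 0 0
  have b1 := mm_rec 1 0
  have b2 := mm_rec 2 0
  have b3 := mm_rec 3 0
  have b4 := mm_four hT3 1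
  rw [a0, a1, dl_zero] at b0
  rw [a1, a2, dl_zero] at b1
  rw [a2, a3, dl_zero] at b2
  rw [a3, a4, dk] at b3
  push_cast at b0 b1 b2 b3
  have b0' : mm 0 1 = 0 := by linear_combination b0
  have b1' : mm 1 1 = 0 := by linear_combination b1
  have b2' : mm 2 1 = -kap := by linear_combination b2
  have b3' : mm 3 1 = 0 := by linear_combination b3
  rw [b0', b1', b2'] at b4
  have c0 := mm_rec 0 1
  have c1 := mm_rec 1 1
  have c2 := mm_rec 2 1
  have c3 := mm_rec 3 1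
  have c4 := mm_four hT3 2
  rw [b0', b1', dl_zero] at c0
  rw [b1', b2', dl_zero] at c1
  rw [b2', b3', dl_neg, dk] at c2
  rw [b3', b4, dl_zero] at c3
  push_cast at c0 c1 c2 c3
  have c0' : mm 0 2 = 0 := by linear_combination c0
  have c1' : mm 1 2 = kap := by linear_combination c1
  have c2' : mm 2 2 = 0 := by linear_combination c2
  have c3' : mm 3 2 = 58 * E4 * kap := by linear_combination c3
  rw [c0', c1', c2'] at c4
  have d0 := mm_rec 0 2
  have d1 := mm_rec 1 2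
  have d2 := mm_rec 2 2
  have d3 := mm_rec 3 2
  have d4 := mm_four hT3 3
  rw [c0', c1', dl_zero] at d0
  rw [c1', c2', dk] at d1
  rw [c2', c3', dl_zero] at d2
  rw [c3', c4, dl_mul, dl_mul, dl_ofNat, dk, hR.dE4] at d3
  push_cast at d0 d1 d2 d3
  have d0' : mm 0 3 = -kap := by linear_combination d0
  have d1' : mm 1 3 = 0 := by linear_combination d1
  have d2' : mm 2 3 = -58 * E4 * kap := by linear_combination d2
  have d3' : mm 3 3 = -288 * E6 * kap := by linear_combination d3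
  rw [d0', d1', d2'] at d4
  have f0 := mm_rec 0 3
  have f1 := mm_rec 1 3
  have f2 := mm_rec 2 3
  have f3 := mm_rec 3 3
  rw [d0', d1', dl_neg, dk] at f0
  rw [d1', d2', dl_zero] at f1
  rw [d2', d3', dl_mul, dl_mul, dl_neg, dl_ofNat, dk, hR.dE4] at f2
  rw [d3', d4, dl_mul, dl_mul, dl_neg, dl_ofNat, dk, hR.dE6] at f3
  push_cast at f0 f1 f2 f3
  refine ⟨⟨b0', b1', b2', b3'⟩, ⟨c0', c1', c2', c3'⟩, ⟨d0', d1', d2', d3'⟩, ?_, ?_, ?_, ?_⟩
  · linear_combination f0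
  · linear_combination f1
  · linear_combination f2
  · linear_combination f3

end

/-- the weights of the pairing -/
def wt : Fin 4 → K := ![1, -2, 2, -1]

/-- the matrix of the `ϑ` -/
def MT : Matrix (Fin 4) (Fin 4) K := fun i b => wt b * tj i b
/-- the matrix of the `G` -/
def MG : Matrix (Fin 4) (Fin 4) K := fun b k => gg k b

theorem MT_mulVec (v : ℤ → K) (i : Fin 4) :
    (MT.mulVec fun b => v b) i = pair v (tj i) := by
  simp only [Matrix.mulVec, dotProduct, MT, Fin.sum_univ_succ, wt, pair]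
  simp
  ring

theorem MT_MG (i k : Fin 4) : (MT * MG) i k = mm i k := by
  rw [Matrix.mul_apply]
  simp only [MT, MG, Fin.sum_univ_succ, wt, pair, mm]
  simp
  ring

/-- the differential equation of `G_β` -/
theorem G_ode (hR : Rels) (hT3 : JobT3) (hT4 : JobT4) (β : ℤ) (h0 : 0 ≤ β) (h3 : β ≤ 3) :
    gg 4 β = 58 * E4 * gg 2 β - 752 * E6 * gg 1 β + 3575 * E4 ^ 2 * gg 0 β := by
  obtain ⟨⟨b0, b1, b2, b3⟩, ⟨c0, c1, c2, c3⟩, ⟨d0, d1, d2, d3⟩, f0, f1, f2, f3⟩ :=
    mvals hR hT3 hT4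
  have a0 := m00 hT4
  have a1 := m10 hT4
  have a2 := m20 hT4
  have a3 := m30 hT4
  have hk := kap_ne
  have hM : MT * MG = !![0, 0, 0, -kap; 0, 0, kap, 0; 0, -kap, 0, -58 * E4 * kap;
      kap, 0, 58 * E4 * kap, -288 * E6 * kap] := by
    ext i k
    rw [MT_MG]
    fin_cases i <;> fin_cases k <;>
      simp [a0, a1, a2, a3, b0, b1, b2, b3, c0, c1, c2, c3, d0, d1, d2, d3]
  have hdet : (MT * MG).det = kap ^ 4 := by
    rw [hM]
    simp [Matrix.det_succ_row_zero, Fin.sum_univ_succ, Fin.succAbove]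
    ring
  have hdT : MT.det ≠ 0 := by
    intro h
    rw [Matrix.det_mul, h, zero_mul] at hdet
    exact pow_ne_zero 4 hk hdet.symm
  let v : ℤ → K := fun b => gg 4 b - (58 * E4 * gg 2 b - 752 * E6 * gg 1 b + 3575 * E4 ^ 2 * gg 0 b)
  have hpair : ∀ i : ℕ, pair v (tj i) = mm i 4 - (58 * E4 * mm i 2 - 752 * E6 * mm i 1
      + 3575 * E4 ^ 2 * mm i 0) := by
    intro i
    simp only [pair, mm, v]
    ring
  have hv : (MT.mulVec fun b => v b) = 0 := by
    ext1 i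
    rw [MT_mulVec, hpair]
    fin_cases i
    · simp [a0, b0, c0, f0]
    · simp [a1, b1, c1, f1]
    · simp [a2, b2, c2, f2]; ring
    · simp [a3, b3, c3, f3]; ring
  have hv0 := Matrix.eq_zero_of_mulVec_eq_zero hdT hv
  obtain ⟨n, rfl⟩ := Int.eq_ofNat_of_zero_le h0
  have hn : n < 4 := by omega
  have := congrFun hv0 ⟨n, hn⟩
  have h4 : v n = 0 := this
  exact sub_eq_zero.1 h4

/-- (b) -/
theorem partB (hR : Rels) (hT3 : JobT3) (hT4 : JobT4) (β : ℤ) (h0 : 0 ≤ β) (h3 : β ≤ 3) :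
    Sol (-1) 3575 (-752) 58 (fG β) := by
  refine sol_of_ode ?_
  have h := G_ode hR hT3 hT4 β h0 h3
  have h' : its (-1) (G β) 4 = 58 * E4 * its (-1) (G β) 2 - 752 * E6 * its (-1) (G β) 1
      + 3575 * E4 ^ 2 * its (-1) (G β) 0 := h
  rw [h']
  push_cast
  ring

end

end Pool.Agent.V5helper12.FR
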