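import Pool.Agent.V5helper12.FR.L2

/-!
# JobL, third part: q-series and uniqueness
-/

set_option autoImplicit false

namespace Pool.Agent.V5helper12.FR

open Pool.Agent.V5helper40.FR
open HahnSeries
open Pool.Agent.R322.QD (e2 e4 e6 th)

noncomputable section

/-- `x^m p(x^24)` -/
def QQ (m : ℤ) (p : PowerSeries ℂ) : K := single m (1 : ℂ) * ofQ p

theorem QQ_mul (m n : ℤ) (p r : PowerSeries ℂ) : QQ m p * QQ n r = QQ (m + n) (p * r) := by
  have h : (single (m + n) (1 : ℂ) : K) = single m 1 * single n 1 := by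
    rw [single_mul_single, one_mul]
  rw [QQ, QQ, QQ, h, map_mul]
  ring

theorem QQ_add (m : ℤ) (p r : PowerSeries ℂ) : QQ m p + QQ m r = QQ m (p + r) := by
  rw [QQ, QQ, QQ, map_add]; ring

theorem QQ_sub (m : ℤ) (p r : PowerSeries ℂ) : QQ m p - QQ m r = QQ m (p - r) := by
  rw [QQ, QQ, QQ, map_sub]; ring

theorem QQ_zero' (p : PowerSeries ℂ) : QQ 0 p = ofQ p := by
  rw [QQ]
  have : (single (0 : ℤ) (1 : ℂ) : K) = 1 := rfl
  rw [this, one_mul]

theorem ofQ_mul_QQ (m : ℤ) (p r : PowerSeries ℂ) : ofQ p * QQ m r = QQ m (p * r) := by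
  rw [← QQ_zero', QQ_mul, zero_add]

theorem single_ne (m : ℤ) : (single m (1 : ℂ) : K) ≠ 0 := single_ne_zero one_ne_zero

theorem QQ_inj {m : ℤ} {p r : PowerSeries ℂ} (h : QQ m p = QQ m r) : p = r :=
  ofQ_injective (mul_left_cancel₀ (single_ne m) h)

theorem QQ_pow (m : ℤ) (p : PowerSeries ℂ) (n : ℕ) : QQ m p ^ n = QQ (n * m) (p ^ n) := by
  induction n with
  | zero =>
    rw [pow_zero, pow_zero, Nat.cast_zero, zero_mul, QQ_zero', map_one]
  | succ n ih =>
    rw [pow_succ, ih, QQ_mul, pow_succ]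
    congr 1
    push_cast
    ring

theorem QQ_shift (m : ℤ) (r : ℕ) (p : PowerSeries ℂ) :
    QQ m (PowerSeries.X ^ r * p) = QQ (m + 24 * r) p := by
  have h : ofQ (PowerSeries.X ^ r) = QQ (24 * r) 1 := by
    rw [map_pow, ofQ_X, ← pow_mul, QQ, (ofQ : PowerSeries ℂ →+* K).map_one, mul_one, xx,
      single_pow, one_pow]
    congr 1
    simp
  have h2 := QQ_mul m (24 * r) p 1
  rw [mul_one] at h2
  rw [← h2, ← h, QQ, QQ, map_mul]
  ring

theorem dl_single (m : ℤ) : dl (single m (1 : ℂ) : K) = (m : K) * (single m 1 : K) := by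
  ext n
  rw [intCast_eq, coeff_C_mul, dl_coeff, coeff_single]
  split_ifs with h
  · rw [h]
  · simp

theorem dl_QQ (m : ℤ) (p : PowerSeries ℂ) : dl (QQ m p) = QQ m (m * p + 24 * th p) := by
  rw [QQ, dl_mul, dl_single, dl_ofQ, QQ, map_add, map_mul, map_mul, map_intCast, ofQ_ofNat]
  ring

theorem psi_single (m : ℤ) : psi (single m (1 : ℂ)) = single (7 * m) 1 := by
  show embDomain _ (single m 1) = _
  rw [embDomain_single]
  simp

theorem psi_QQ (m : ℤ) (p : PowerSeries ℂ) : psi (QQ m p) = QQ (7 * m) (subq 7 p) := by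
  rw [QQ, map_mul, psi_single, psi_ofQ, QQ]

/-- coefficients -/
theorem QQ_coeff (m : ℤ) (p : PowerSeries ℂ) (n : ℤ) :
    (QQ m p).coeff n = (ofQ p).coeff (n - m) := by
  rw [QQ]
  have h := coeff_single_mul_add (r := (1 : ℂ)) (x := ofQ p) (a := n - m) (b := m)
  rw [sub_add_cancel, one_mul] at h
  exact h

/-- the derivatives of a `q`-series -/
def pd (k m : ℤ) (p : PowerSeries ℂ) : ℕ → PowerSeries ℂ
  | 0 => p
  | n + 1 => m * pd k m p n + 24 * th (pd k m p n) - (k + 4 * n : ℤ) * (e2 * pd k m p n)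

theorem its_QQ (k m : ℤ) (p : PowerSeries ℂ) (n : ℕ) :
    its k (QQ m p) n = QQ m (pd k m p n) := by
  induction n with
  | zero => rfl
  | succ n ih =>
    rw [its_succ, ih, dl_QQ, pd, ← QQ_sub]
    congr 1
    rw [QQ, QQ, map_mul, map_mul, map_intCast]
    show _ * ofQ e2 * _ = _
    ring

/-! ### Lowest coefficients -/

/-- the coefficients below `r` vanish, that of `X^r` is `a` -/
def Lo (r : ℕ) (a : ℂ) (p : PowerSeries ℂ) : Prop := (∀ n < r, p.coeff n = 0) ∧ p.coeff r = a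

theorem Lo.add {r : ℕ} {a b : ℂ} {p q : PowerSeries ℂ} (h : Lo r a p) (h' : Lo r b q) :
    Lo r (a + b) (p + q) :=
  ⟨fun n hn => by rw [map_add, h.1 n hn, h'.1 n hn, add_zero], by rw [map_add, h.2, h'.2]⟩

theorem Lo.sub {r : ℕ} {a b : ℂ} {p q : PowerSeries ℂ} (h : Lo r a p) (h' : Lo r b q) :
    Lo r (a - b) (p - q) :=
  ⟨fun n hn => by rw [map_sub, h.1 n hn, h'.1 n hn, sub_zero], by rw [map_sub, h.2, h'.2]⟩

theorem Lo.mul {r : ℕ} {a : ℂ} {e p : PowerSeries ℂ} (h : Lo r a p) :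
    Lo r (e.coeff 0 * a) (e * p) := by
  constructor
  · intro n hn
    rw [PowerSeries.coeff_mul]
    refine Finset.sum_eq_zero fun x hx => ?_
    have := Finset.HasAntidiagonal.mem_antidiagonal.1 hx
    rw [h.1 x.2 (by omega), mul_zero]
  · rw [PowerSeries.coeff_mul, Finset.sum_eq_single (0, r)]
    · rw [h.2]
    · intro x hx hne
      have h1 := Finset.HasAntidiagonal.mem_antidiagonal.1 hx
      have h2 : x.2 < r := by
        rcases Nat.lt_or_ge x.2 r with h3 | h3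
        · exact h3
        · exfalso
          apply hne
          ext
          · show x.1 = 0
            omega
          · show x.2 = r
            omega
      rw [h.1 x.2 h2, mul_zero]
    · intro h1
      exact absurd (Finset.HasAntidiagonal.mem_antidiagonal.2 (zero_add r)) h1

theorem Lo.int {r : ℕ} {a : ℂ} {p : PowerSeries ℂ} (h : Lo r a p) (c : ℤ) :
    Lo r (c * a) ((c : PowerSeries ℂ) * p) := by
  have h1 := h.mul (e := (c : PowerSeries ℂ))
  have h2 : ((c : PowerSeries ℂ)).coeff 0 = (c : ℂ) := by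
    rw [← map_intCast (PowerSeries.C : ℂ →+* PowerSeries ℂ) c]
    simp
  rwa [h2] at h1

theorem Lo.nat {r : ℕ} {a : ℂ} {p : PowerSeries ℂ} (h : Lo r a p) (c : ℕ) [c.AtLeastTwo] :
    Lo r (OfNat.ofNat c * a) ((OfNat.ofNat c : PowerSeries ℂ) * p) := by
  have h1 := h.mul (e := (OfNat.ofNat c : PowerSeries ℂ))
  have h2 : ((OfNat.ofNat c : PowerSeries ℂ)).coeff 0 = (OfNat.ofNat c : ℂ) := by
    rw [← map_ofNat (PowerSeries.C : ℂ →+* PowerSeries ℂ) c]
    simp
  rwa [h2] at h1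

theorem Lo.th {r : ℕ} {a : ℂ} {p : PowerSeries ℂ} (h : Lo r a p) :
    Lo r (r * a) (Pool.Agent.R322.QD.th p) := by
  constructor
  · intro n hn
    rw [Pool.Agent.R322.QD.coeff_th, h.1 n hn, mul_zero]
  · rw [Pool.Agent.R322.QD.coeff_th, h.2]

theorem e6c0 : e6.coeff 0 = 1 := by rw [Pool.Agent.R322.QD.coeff_e6]; simp

theorem pd_Lo (k m : ℤ) {r : ℕ} {p : PowerSeries ℂ} (n : ℕ) {b : ℂ}
    (h' : Lo r b (pd k m p n)) : Lo r ((m + 24 * r - k - 4 * n) * b) (pd k m p (n + 1)) := by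
  have h1 := ((h'.int m).add (h'.th.nat 24)).sub ((h'.mul (e := e2)).int (k + 4 * n))
  rw [e2c0] at h1
  rw [pd]
  convert h1 using 1
  push_cast
  ring

/-- the indicial polynomial -/
def ind (k c0 c1 c2 m : ℤ) : ℤ :=
  (m - k) * (m - k - 4) * (m - k - 8) * (m - k - 12) - c2 * ((m - k) * (m - k - 4))
    - c1 * (m - k) - c0

theorem sol_its {k c0 c1 c2 : ℤ} {f : ℕ → K} (hf : Sol k c0 c1 c2 f) :
    f 1 = its k (f 0) 1 ∧ f 2 = its k (f 0) 2 ∧ f 3 = its k (f 0) 3 := by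
  have h1 : f 1 = its k (f 0) 1 := by
    rw [its_succ, its_zero]
    have := hf.h0
    push_cast
    linear_combination -this
  have h2 : f 2 = its k (f 0) 2 := by
    rw [its_succ _ _ 1, ← h1]
    have := hf.h1
    push_cast
    linear_combination -this
  have h3 : f 3 = its k (f 0) 3 := by
    rw [its_succ _ _ 2, ← h2]
    have := hf.h2
    push_cast
    linear_combination -this
  exact ⟨h1, h2, h3⟩

/-- **Uniqueness.** -/
theorem uniq {k c0 c1 c2 : ℤ} {f : ℕ → K} (hf : Sol k c0 c1 c2 f) (m : ℤ) (R : PowerSeries ℂ)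
    (hR : f 0 = QQ m R) (r0 : ℕ) (hroot : ∀ r : ℕ, ind k c0 c1 c2 (m + 24 * r) = 0 → r = r0)
    (hc : R.coeff r0 = 0) : f 0 = 0 := by
  by_contra hne
  have hR0 : ∃ n, R.coeff n ≠ 0 := by
    by_contra hcon
    push Not at hcon
    have : R = 0 := by ext n; rw [hcon n]; simp
    rw [this, QQ, map_zero, mul_zero] at hR
    exact hne hR
  classical
  set r := Nat.find hR0 with hr
  have hr1 : R.coeff r ≠ 0 := Nat.find_spec hR0
  have hr2 : ∀ n < r, R.coeff n = 0 := fun n hn => by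
    have := Nat.find_min hR0 hn
    push Not at this
    exact this
  have l0 : Lo r (R.coeff r) (pd k m R 0) := ⟨hr2, rfl⟩
  have l1 := pd_Lo k m 0 l0
  have l2 := pd_Lo k m 1 l1
  have l3 := pd_Lo k m 2 l2
  obtain ⟨f1, f2, f3⟩ := sol_its hf
  rw [hR, its_QQ] at f1 f2 f3
  have h := hf.h3
  rw [hR, f1, f2, f3, dl_QQ] at h
  have h' : QQ m (m * pd k m R 3 + 24 * th (pd k m R 3)) =
      QQ m ((k + 12 : ℤ) * (e2 * pd k m R 3) + c2 * (e4 * pd k m R 2)
        + c1 * (e6 * pd k m R 1) + c0 * (e4 * (e4 * pd k m R 0))) := by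
    rw [h, QQ, QQ, QQ, QQ, QQ]
    show (k + 12) * ofQ e2 * _ + c2 * ofQ e4 * _ + c1 * ofQ e6 * _ + c0 * ofQ e4 ^ 2 * _ = _
    simp only [map_add, map_mul, map_intCast, pd]
    push_cast
    ring
  have h2 := QQ_inj h'
  have L := (l3.int m).add (l3.th.nat 24)
  have Rr := ((((l3.mul (e := e2)).int (k + 12)).add ((l2.mul (e := e4)).int c2)).add
    ((l1.mul (e := e6)).int c1)).add (((l0.mul (e := e4)).mul (e := e4)).int c0)
  rw [e2c0, e4c0, e6c0] at Rr
  have h3 := L.2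
  rw [h2, Rr.2] at h3
  have h4 : ((ind k c0 c1 c2 (m + 24 * r) : ℤ) : ℂ) * R.coeff r = 0 := by
    rw [ind]
    push_cast at h3 ⊢
    linear_combination -h3
  rcases mul_eq_zero.1 h4 with h5 | h5
  · have h6 := hroot r (by exact_mod_cast h5)
    rw [h6] at hr1
    exact hr1 hc
  · exact hr1 h5

theorem Sol.sub_smul {k c0 c1 c2 : ℤ} {f g : ℕ → K} (hf : Sol k c0 c1 c2 f)
    (hg : Sol k c0 c1 c2 g) (a b : ℤ) : Sol k c0 c1 c2 (fun i => a * f i - b * g i) := by
  refine ⟨?_, ?_, ?_, ?_⟩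
  · show dl (a * f 0 - b * g 0) = _
    rw [dl_sub, dl_mul, dl_mul, dl_intCast, dl_intCast, hf.h0, hg.h0]; ring
  · show dl (a * f 1 - b * g 1) = _
    rw [dl_sub, dl_mul, dl_mul, dl_intCast, dl_intCast, hf.h1, hg.h1]; ring
  · show dl (a * f 2 - b * g 2) = _
    rw [dl_sub, dl_mul, dl_mul, dl_intCast, dl_intCast, hf.h2, hg.h2]; ring
  · show dl (a * f 3 - b * g 3) = _
    rw [dl_sub, dl_mul, dl_mul, dl_intCast, dl_intCast, hf.h3, hg.h3]; ring

theorem Sol.zero {k c0 c1 c2 : ℤ} {f : ℕ → K} (hf : Sol k c0 c1 c2 f) (h : f 0 = 0) (i : ℕ)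
    (hi : i < 4) : f i = 0 := by
  have h0 := hf.h0
  have h1 := hf.h1
  have h2 := hf.h2
  rw [h, dl_zero] at h0
  have f1 : f 1 = 0 := by linear_combination -h0
  rw [f1, dl_zero] at h1
  have f2 : f 2 = 0 := by linear_combination -h1
  rw [f2, dl_zero] at h2
  have f3 : f 3 = 0 := by linear_combination -h2
  interval_cases i
  · exact h
  · exact f1
  · exact f2
  · exact f3

end

end Pool.Agent.V5helper12.FR
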