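import Pool.Agent.V5helper12.FR.L3

/-!
# JobL, fourth part: truncated power series
-/

set_option autoImplicit false

namespace Pool.Agent.V5helper12.FR

open Pool.Agent.V5helper40.FR
open HahnSeries
open Pool.Agent.R322.QD (e2 e4 e6 th)

noncomputable section

/-- `X` -/
abbrev X6 : PowerSeries ℂ := PowerSeries.X

/-- congruence modulo `X^6` with a polynomial with integer coefficients -/
def Cg (p : PowerSeries ℂ) (l : List ℤ) : Prop := ∃ r, p = ev X6 l + X6 ^ 6 * r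

theorem ev_take_drop {R : Type*} [CommRing R] (t : R) :
    ∀ (n : ℕ) (l : List ℤ), ev t l = ev t (l.take n) + t ^ n * ev t (l.drop n)
  | 0, l => by simp [ev_nil]
  | n + 1, [] => by simp [ev_nil]
  | n + 1, c :: l => by
    rw [List.take_succ_cons, List.drop_succ_cons, ev_cons, ev_cons, ev_take_drop t n l]
    ring

theorem Cg.add {p q : PowerSeries ℂ} {l m : List ℤ} (h : Cg p l) (h' : Cg q m) :
    Cg (p + q) (addL l m) := by
  obtain ⟨r, rfl⟩ := h
  obtain ⟨s, rfl⟩ := h'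
  exact ⟨r + s, by rw [ev_add]; ring⟩

/-- truncated product -/
def mT (l m : List ℤ) : List ℤ := (mulL l m).take 6

theorem Cg.mul {p q : PowerSeries ℂ} {l m : List ℤ} (h : Cg p l) (h' : Cg q m) :
    Cg (p * q) (mT l m) := by
  obtain ⟨r, rfl⟩ := h
  obtain ⟨s, rfl⟩ := h'
  have e := ev_take_drop X6 6 (mulL l m)
  rw [ev_mul] at e
  refine ⟨ev X6 ((mulL l m).drop 6) + ev X6 l * s + r * ev X6 m + X6 ^ 6 * r * s, ?_⟩
  rw [mT]
  linear_combination e

/-- truncated powers -/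
def powT (l : List ℤ) : ℕ → List ℤ
  | 0 => [1]
  | n + 1 => mT (powT l n) l

theorem Cg.one : Cg 1 [1] := ⟨0, by simp [ev]⟩

theorem Cg.pow {p : PowerSeries ℂ} {l : List ℤ} (h : Cg p l) (n : ℕ) : Cg (p ^ n) (powT l n) := by
  induction n with
  | zero => rw [pow_zero]; exact Cg.one
  | succ n ih => rw [pow_succ]; exact ih.mul h

theorem Cg.int (c : ℤ) : Cg (c : PowerSeries ℂ) [c] := ⟨0, by simp [ev]⟩

/-- truncated substitution -/
def evT (t : List ℤ) : List ℤ → List ℤ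
  | [] => []
  | c :: l => addL [c] (mT t (evT t l))

theorem Cg.evl {p : PowerSeries ℂ} {t : List ℤ} (h : Cg p t) :
    ∀ l : List ℤ, Cg (ev p l) (evT t l)
  | [] => ⟨0, by simp [ev, evT]⟩
  | c :: l => by
    rw [ev_cons, evT]
    exact (Cg.int c).add (h.mul (Cg.evl h l))

theorem coeff_ev_X : ∀ (l : List ℤ) (n : ℕ), (ev X6 l).coeff n = ((l.getD n 0 : ℤ) : ℂ)
  | [], n => by simp [ev_nil]
  | c :: l, 0 => by
    rw [ev_cons, map_add, ← map_intCast (PowerSeries.C : ℂ →+* PowerSeries ℂ) c]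
    simp
  | c :: l, n + 1 => by
    rw [ev_cons, map_add, ← map_intCast (PowerSeries.C : ℂ →+* PowerSeries ℂ) c,
      PowerSeries.coeff_succ_X_mul, coeff_ev_X l n, PowerSeries.coeff_C,
      if_neg (Nat.succ_ne_zero n), zero_add, List.getD_cons_succ]

theorem Cg.coeff {p : PowerSeries ℂ} {l : List ℤ} (h : Cg p l) (n : ℕ) (hn : n < 6) :
    p.coeff n = ((l.getD n 0 : ℤ) : ℂ) := by
  obtain ⟨r, rfl⟩ := h
  rw [map_add, coeff_ev_X, PowerSeries.coeff_X_pow_mul', if_neg (by omega), add_zero]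

theorem Cg.of_coeff {p : PowerSeries ℂ} {l : List ℤ}
    (h : ∀ n < 6, p.coeff n = ((l.getD n 0 : ℤ) : ℂ)) : Cg p l := by
  have h1 : X6 ^ 6 ∣ p - ev X6 l := by
    rw [PowerSeries.X_pow_dvd_iff]
    intro n hn
    rw [map_sub, coeff_ev_X, h n hn, sub_self]
  obtain ⟨r, hr⟩ := h1
  exact ⟨r, by rw [← hr]; ring⟩

theorem Cg.inv {p : PowerSeries ℂ} {l v : List ℤ} (h : Cg p l)
    (h0 : PowerSeries.constantCoeff p ≠ 0)
    (hv : zeroL (addL (mT l v) [-1]) = true) : Cg p⁻¹ v := by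
  have h1 : Cg (p * ev X6 v) (mT l v) := h.mul ⟨0, by ring⟩
  obtain ⟨r, hr⟩ := h1
  have h2 := ev_zero X6 _ hv
  rw [ev_add, ev_cons, ev_nil] at h2
  have h3 := PowerSeries.mul_inv_cancel p h0
  refine ⟨-(p⁻¹ * r), ?_⟩
  push_cast at h2
  linear_combination (ev X6 v) * h3 - p⁻¹ * hr - p⁻¹ * h2

theorem Cg.subq {p : PowerSeries ℂ} {c : ℤ} (h : p.coeff 0 = c) : Cg (subq 7 p) [c] := by
  refine Cg.of_coeff ?_
  intro n hn
  rw [Pool.Agent.V5helper40.FR.subq, PowerSeries.coeff_mk]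
  interval_cases n
  · simpa using h
  all_goals simp

/-! ### The Euler product -/

/-- the partial products -/
def prodL : ℕ → List ℤ
  | 0 => [1]
  | n + 1 => mulL (prodL n) (1 :: shL n [-1])

theorem prod_ev (n : ℕ) :
    ∏ j ∈ Finset.range n, (1 - (PowerSeries.X : PowerSeries ℂ) ^ (j + 1)) = ev X6 (prodL n) := by
  induction n with
  | zero => simp [prodL, ev]
  | succ n ih =>
    rw [Finset.prod_range_succ, ih, prodL, ev_mul, ev_cons, ev_sh, ev_cons, ev_nil]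
    push_cast
    ring

/-- the Euler product modulo `X^6` -/
def peL : List ℤ := [1, -1, -1, 0, 0, 1]

theorem cg_PE : Cg PE peL := by
  refine Cg.of_coeff ?_
  intro n hn
  rw [PE, eulerProd, PowerSeries.coeff_mk, prod_ev, coeff_ev_X]
  have : ∀ n < 6, (prodL n).getD n 0 = peL.getD n 0 := by decide +kernel
  rw [this n hn]

/-- its inverse -/
def piL : List ℤ := [1, 1, 2, 3, 5, 7]

theorem cg_PI : Cg PE⁻¹ piL :=
  cg_PE.inv (by rw [PE_const]; exact one_ne_zero) (by decide +kernel)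

theorem cg_P7 : Cg (subq 7 PE) [1] := Cg.subq (by rw [euler_coeff_zero]; simp)

theorem cg_P7I : Cg (subq 7 PE)⁻¹ [1] :=
  cg_P7.inv (by rw [P7_const]; exact one_ne_zero) (by decide +kernel)

/-- `t/q` and its inverse -/
def uP : PowerSeries ℂ := (subq 7 PE * PE⁻¹) ^ 4
def uI : PowerSeries ℂ := (PE * (subq 7 PE)⁻¹) ^ 4
def aI : PowerSeries ℂ := PE⁻¹ ^ 7 * subq 7 PE

theorem PE_inv : PE * PE⁻¹ = 1 := PowerSeries.mul_inv_cancel _ (by rw [PE_const]; exact one_ne_zero)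
theorem P7_inv : subq 7 PE * (subq 7 PE)⁻¹ = 1 :=
  PowerSeries.mul_inv_cancel _ (by rw [P7_const]; exact one_ne_zero)

theorem uP_uI : uP * uI = 1 := by
  rw [uP, uI, ← mul_pow]
  have : subq 7 PE * PE⁻¹ * (PE * (subq 7 PE)⁻¹) = (PE * PE⁻¹) * (subq 7 PE * (subq 7 PE)⁻¹) := by
    ring
  rw [this, PE_inv, P7_inv]
  simp

theorem aP_aI : aP * aI = 1 := by
  rw [aP, aI]
  have : PE ^ 7 * (subq 7 PE)⁻¹ * (PE⁻¹ ^ 7 * subq 7 PE) =
      (PE * PE⁻¹) ^ 7 * (subq 7 PE * (subq 7 PE)⁻¹) := by ring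
  rw [this, PE_inv, P7_inv]
  simp

theorem tt_QQ : tt = QQ 24 uP := by
  have h := QQ_shift 0 1 uP
  rw [tt_eq, tP, ← QQ_zero', show (24 : ℤ) = 0 + 24 * (1 : ℕ) by norm_num, ← h, pow_one, uP]

theorem cg_uI : Cg uI (powT (mT peL [1]) 4) := (cg_PE.mul cg_P7I).pow 4
theorem cg_aI : Cg aI (mT (powT piL 7) [1]) := (cg_PI.pow 7).mul cg_P7
theorem cg_aP : Cg aP (mT (powT peL 7) [1]) := (cg_PE.pow 7).mul cg_P7I

/-- `t` modulo `X^6` -/
def tL : List ℤ := mT [0, 1] (powT (mT [1] piL) 4)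

theorem cg_tP : Cg tP tL := by
  have hX : Cg X6 [0, 1] := ⟨0, by simp [ev]⟩
  exact hX.mul ((cg_P7.mul cg_PI).pow 4)

/-! ### `θ` -/

/-- `θ` as a power series in `q` -/
def thP : PowerSeries ℂ := Y0 * aP⁻¹

theorem thh_eq : thh = ofQ thP := by
  rw [thh, Y0K, AA_eq, thP, map_mul, ofQ_inv (by rw [aP_const]; exact one_ne_zero)]
  rfl

theorem thP_const : PowerSeries.constantCoeff thP = 1 := by
  rw [thP, map_mul, PowerSeries.constantCoeff_inv, aP_const,
    ← PowerSeries.coeff_zero_eq_constantCoeff_apply, Y0c0]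
  simp

theorem thP_sq (hR : Rels) : thP ^ 2 = Th2 := by
  have h := hR.T2e
  rw [thh_eq, ← map_pow] at h
  exact (ofQ_injective h).symm

theorem cg_Th2 : Cg Th2 [1, 4, 12, 16, 28, 24] := by
  refine Cg.of_coeff ?_
  intro n hn
  rw [Th2, PowerSeries.coeff_C_mul, map_sub, coeff_ofNat_mul, Pool.Agent.V5helper40.FR.subq,
    PowerSeries.coeff_mk, Pool.Agent.R322.QD.coeff_e2, Pool.Agent.R322.QD.coeff_e2]
  have s1 : ArithmeticFunction.sigma 1 1 = 1 := by decide +kernel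
  have s2 : ArithmeticFunction.sigma 1 2 = 3 := by decide +kernel
  have s3 : ArithmeticFunction.sigma 1 3 = 4 := by decide +kernel
  have s4 : ArithmeticFunction.sigma 1 4 = 7 := by decide +kernel
  have s5 : ArithmeticFunction.sigma 1 5 = 6 := by decide +kernel
  interval_cases n
  · norm_num
  · norm_num [s1]
  · norm_num [s2]
  · norm_num [s3]
  · norm_num [s4]
  · norm_num [s5]

/-- `θ` modulo `X^6` -/
def thL : List ℤ := [1, 2, 4, 0, 6, 0]

theorem cg_thP (hR : Rels) : Cg thP thL := by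
  obtain ⟨r, hr⟩ := cg_Th2
  rw [← thP_sq hR] at hr
  have e1 : ev X6 (mT thL thL) = ev X6 [1, 4, 12, 16, 28, 24] := by
    congr 1
  have e2 := ev_take_drop X6 6 (mulL thL thL)
  rw [ev_mul] at e2
  have e3 : (mulL thL thL).take 6 = mT thL thL := rfl
  rw [e3, e1] at e2
  have hc : PowerSeries.constantCoeff (thP + ev X6 thL) ≠ 0 := by
    rw [map_add, thP_const, ← PowerSeries.coeff_zero_eq_constantCoeff_apply, coeff_ev_X]
    norm_num [thL]
  have h1 := PowerSeries.mul_inv_cancel _ hc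
  refine ⟨(r - ev X6 ((mulL thL thL).drop 6)) * (thP + ev X6 thL)⁻¹, ?_⟩
  have h2 : (thP - ev X6 thL) * (thP + ev X6 thL) =
      X6 ^ 6 * (r - ev X6 ((mulL thL thL).drop 6)) := by
    linear_combination hr - e2
  linear_combination (-(thP - ev X6 thL)) * h1 + (thP + ev X6 thL)⁻¹ * h2

end

end Pool.Agent.V5helper12.FR
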