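import Pool.Agent.V5helper12.FR.L4

/-!
# JobL, fifth part: the rows as `q`-series
-/

set_option autoImplicit false

namespace Pool.Agent.V5helper12.FR

open Pool.Agent.V5helper40.FR
open HahnSeries
open Pool.Agent.R322.QD (e2 e4 e6 th)

noncomputable section

theorem ofQ_coeff_neg (p : PowerSeries ℂ) (n : ℤ) (hn : n < 0) : (ofQ p).coeff n = 0 := by
  rw [ofQ_eq, ofP_coeff_neg _ _ hn]

theorem ofQ_coeff_nat (p : PowerSeries ℂ) (n : ℕ) :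
    (ofQ p).coeff (n : ℤ) = if 24 ∣ n then p.coeff (n / 24) else 0 := by
  rw [ofQ_eq, ofP_coeff, subq, PowerSeries.coeff_mk]

/-! ### theta -/

theorem tht_coeff (j : ℤ) (n : ℕ) : (tht j).coeff n =
    (((Finset.Icc (-(n : ℤ)) (n : ℤ)).filter
      (fun r : ℤ => (6 : ℤ) ∣ r - j ∧ 2 * r ^ 2 = (n : ℤ))).card : ℂ) := by
  rw [tht, PowerSeries.coeff_mk]

theorem tht_coeff_zero (j : ℤ) (n : ℕ) (h : ∀ r : ℤ, (6 : ℤ) ∣ r - j → 2 * r ^ 2 ≠ (n : ℤ)) :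
    (tht j).coeff n = 0 := by
  rw [tht_coeff, Finset.filter_false_of_mem, Finset.card_empty, Nat.cast_zero]
  intro r _ hr
  exact h r hr.1 hr.2

/-- `ϑ_j` as a `q`-series -/
def thQ (a : ℕ) (j : ℤ) : PowerSeries ℂ := PowerSeries.mk fun n => (tht j).coeff (a + 24 * n)

theorem thK_QQ (a : ℕ) (j : ℤ) (ha : (a : ℤ) = 2 * j ^ 2) (h0 : 0 ≤ j) (h3 : j ≤ 3) :
    thK j = QQ a (thQ a j) := by
  ext n
  rw [QQ_coeff]
  have key : ∀ r : ℤ, (6 : ℤ) ∣ r - j → 2 * j ^ 2 ≤ 2 * r ^ 2 ∧ (24 : ℤ) ∣ 2 * r ^ 2 - 2 * j ^ 2 := by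
    intro r hr
    obtain ⟨s, hs⟩ := hr
    have hr : r = j + 6 * s := by omega
    subst hr
    constructor
    · have : 0 ≤ s * (j + 3 * s) := by
        rcases lt_trichotomy s 0 with h | h | h
        · have h1 : j + 3 * s ≤ 0 := by omega
          nlinarith
        · subst h; simp
        · have h1 : 0 ≤ j + 3 * s := by omega
          positivity
      nlinarith
    · have e : 2 * (j + 6 * s) ^ 2 - 2 * j ^ 2 = 24 * (s * (j + 3 * s)) := by ring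
      rw [e]
      exact dvd_mul_right _ _
  rcases lt_or_ge n 0 with hn | hn
  · rw [thK, ofP_coeff_neg _ _ hn, ofQ_coeff_neg _ _ (by omega)]
  · obtain ⟨n, rfl⟩ := Int.eq_ofNat_of_zero_le hn
    rw [thK, ofP_coeff]
    rcases lt_or_ge n a with h | h
    · rw [ofQ_coeff_neg _ _ (by omega), tht_coeff_zero]
      intro r hr he
      have := (key r hr).1
      omega
    · obtain ⟨b, rfl⟩ := Nat.exists_eq_add_of_le h
      have e : (((a + b : ℕ) : ℤ)) - (a : ℤ) = (b : ℤ) := by push_cast; ring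
      rw [e, ofQ_coeff_nat]
      split_ifs with hd
      · obtain ⟨c, rfl⟩ := hd
        rw [Nat.mul_div_cancel_left _ (by norm_num), thQ, PowerSeries.coeff_mk]
      · rw [tht_coeff_zero]
        intro r hr he
        have := (key r hr).2
        apply hd
        have h2 : 2 * r ^ 2 - 2 * j ^ 2 = (b : ℤ) := by
          rw [he, ← ha]; push_cast; ring
        rw [h2] at this
        exact_mod_cast this

theorem thQ0 : (thQ 0 0).coeff 0 = ((1 : ℤ) : ℂ) := by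
  rw [thQ, PowerSeries.coeff_mk, tht_coeff]
  have : ((Finset.Icc (-((0 + 24 * 0 : ℕ) : ℤ)) ((0 + 24 * 0 : ℕ) : ℤ)).filter
      (fun r : ℤ => (6 : ℤ) ∣ r - 0 ∧ 2 * r ^ 2 = ((0 + 24 * 0 : ℕ) : ℤ))).card = 1 := by
    decide +kernel
  rw [this]; norm_num

theorem thQ1 : (thQ 2 1).coeff 0 = ((1 : ℤ) : ℂ) := by
  rw [thQ, PowerSeries.coeff_mk, tht_coeff]
  have : ((Finset.Icc (-((2 + 24 * 0 : ℕ) : ℤ)) ((2 + 24 * 0 : ℕ) : ℤ)).filter
      (fun r : ℤ => (6 : ℤ) ∣ r - 1 ∧ 2 * r ^ 2 = ((2 + 24 * 0 : ℕ) : ℤ))).card = 1 := by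
    decide +kernel
  rw [this]; norm_num

theorem thQ2 : (thQ 8 2).coeff 0 = ((1 : ℤ) : ℂ) := by
  rw [thQ, PowerSeries.coeff_mk, tht_coeff]
  have : ((Finset.Icc (-((8 + 24 * 0 : ℕ) : ℤ)) ((8 + 24 * 0 : ℕ) : ℤ)).filter
      (fun r : ℤ => (6 : ℤ) ∣ r - 2 ∧ 2 * r ^ 2 = ((8 + 24 * 0 : ℕ) : ℤ))).card = 1 := by
    decide +kernel
  rw [this]; norm_num

theorem thQ3 : (thQ 18 3).coeff 0 = ((2 : ℤ) : ℂ) := by
  rw [thQ, PowerSeries.coeff_mk, tht_coeff]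
  have : ((Finset.Icc (-((18 + 24 * 0 : ℕ) : ℤ)) ((18 + 24 * 0 : ℕ) : ℤ)).filter
      (fun r : ℤ => (6 : ℤ) ∣ r - 3 ∧ 2 * r ^ 2 = ((18 + 24 * 0 : ℕ) : ℤ))).card = 2 := by
    decide +kernel
  rw [this]; norm_num

theorem eta_QQ : eta = QQ 1 PE := rfl

/-- the derivatives of `η⁴ϑ_j` -/
theorem fT_QQ (a : ℕ) (j : ℤ) (ha : (a : ℤ) = 2 * j ^ 2) (h0 : 0 ≤ j) (h3 : j ≤ 3) (n : ℕ) :
    fT j n = QQ (4 + a) (pd 5 (4 + a) (PE ^ 4 * thQ a j) n) := by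
  rw [fT, thK_QQ a j ha h0 h3, eta_QQ, QQ_pow, QQ_mul]
  have e : (((4 : ℕ) : ℤ) * 1 + (a : ℤ)) = 4 + a := by push_cast; ring
  rw [e, its_QQ]

/-! ### `G` -/

/-- `G_β` as a `q`-series -/
def gP (β : ℤ) : PowerSeries ℂ := PowerSeries.mk fun n => (cpsi 6 β n : ℂ)

theorem G_coeff (β n : ℤ) : (G β).coeff n = if (24 : ℤ) ∣ n - (12 - 2 * β ^ 2) then
    (cpsi 6 β ((n - (12 - 2 * β ^ 2)) / 24) : ℂ) else 0 := rfl

theorem G_QQ (β : ℤ) : G β = QQ (12 - 2 * β ^ 2) (gP β) := by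
  ext n
  rw [QQ_coeff, G_coeff]
  generalize n - (12 - 2 * β ^ 2) = m
  rcases lt_or_ge m 0 with h | h
  · rw [ofQ_coeff_neg _ _ h]
    split_ifs with hd
    · have : m / 24 < 0 := by omega
      rw [cpsi, if_pos this]; simp
    · rfl
  · obtain ⟨m, rfl⟩ := Int.eq_ofNat_of_zero_le h
    rw [ofQ_coeff_nat]
    by_cases hd : 24 ∣ m
    · rw [if_pos hd, if_pos (by exact_mod_cast hd), gP, PowerSeries.coeff_mk]
      congr 2
    · rw [if_neg hd, if_neg (by intro hc; exact hd (by exact_mod_cast hc))]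

theorem fG_QQ (β : ℤ) (n : ℕ) :
    fG β n = QQ (12 - 2 * β ^ 2) (pd (-1) (12 - 2 * β ^ 2) (gP β) n) := by
  rw [fG, G_QQ, its_QQ]

/-! ### the rows -/

/-- the numerator -/
def ZZ (p : ℕ → ℕ → List ℤ) (φ : ℕ → PowerSeries ℂ) : PowerSeries ℂ :=
  (((aP ^ 2 * ev tP (p 0 0)) * subq 7 (φ 0) + ((thP * aP) * ev tP (p 0 1)) * subq 7 (φ 1))
    + (thP ^ 2 * ev tP (p 0 2)) * subq 7 (φ 2)) + ev tP (p 0 3) * subq 7 (φ 3)

/-- the row, as a `q`-series, up to the factor `N` -/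
def WW (p : ℕ → ℕ → List ℤ) (s e : ℕ) (φ : ℕ → PowerSeries ℂ) : PowerSeries ℂ :=
  uI ^ s * (aI ^ e * ZZ p φ)

theorem RR_QQ (hR : Rels) (p : ℕ → ℕ → List ℤ) (s e : ℕ) (N ep : ℤ) (hN : N ≠ 0)
    (he : (e : ℤ) = 2 - ep) (f : ℕ → K) (m : ℤ) (φ : ℕ → PowerSeries ℂ)
    (hf : ∀ i, f i = QQ m (φ i)) :
    N * RR p s N ep f 0 = QQ (7 * m - 24 * s) (WW p s e φ) := by
  have hA := AA_ne
  have ht := tt_ne
  have hth := thh_ne
  have hd := dd_ne hR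
  have hN' : (N : K) ≠ 0 := by exact_mod_cast hN
  have h3 : thh ^ 3 = AA * dd := by rw [dd_eq]; exact hR.th3
  have hev : ∀ l : List ℤ, ev tt l = ofQ (ev tP l) := fun l => by rw [tt_eq, map_ev]
  have hZ : AA ^ 2 * (ee 0 * ev tt (p 0 0) * psi (f 0) + ee 1 * ev tt (p 0 1) * psi (f 1)
      + ee 2 * ev tt (p 0 2) * psi (f 2) + ee 3 * ev tt (p 0 3) * psi (f 3))
      = QQ (7 * m) (ZZ p φ) := by
    have e1 : AA ^ 2 * ee 1 = thh * AA := by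
      rw [ee_1]; field_simp; linear_combination -h3
    have e2 : AA ^ 2 * ee 2 = thh ^ 2 := by
      rw [ee_2]; field_simp; linear_combination -(AA * dd + thh ^ 3) * h3
    have e3 : AA ^ 2 * ee 3 = 1 := by
      rw [ee_3]; field_simp; linear_combination -(AA * dd + thh ^ 3) * h3
    have e4 : AA ^ 2 * (ee 0 * ev tt (p 0 0) * psi (f 0) + ee 1 * ev tt (p 0 1) * psi (f 1)
      + ee 2 * ev tt (p 0 2) * psi (f 2) + ee 3 * ev tt (p 0 3) * psi (f 3))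
      = AA ^ 2 * ev tt (p 0 0) * psi (f 0) + (AA ^ 2 * ee 1) * ev tt (p 0 1) * psi (f 1)
      + (AA ^ 2 * ee 2) * ev tt (p 0 2) * psi (f 2) + (AA ^ 2 * ee 3) * ev tt (p 0 3) * psi (f 3) := by
      rw [ee_0]; ring
    rw [e4, e1, e2, e3, hf, hf, hf, hf, psi_QQ, psi_QQ, psi_QQ, psi_QQ, hev, hev, hev, hev, AA_eq,
      thh_eq, ZZ, QQ, QQ, QQ, QQ, QQ]
    simp only [map_add, map_mul, map_pow]
    ring
  have hw : (N : K) * ww s N ep * (tt ^ s * AA ^ e) = AA ^ 2 := by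
    rw [ww]
    have h1 : AA ^ ep * AA ^ e = AA ^ 2 := by
      rw [← zpow_natCast AA e, he, ← zpow_add₀ hA]
      have : ep + (2 - ep) = ((2 : ℕ) : ℤ) := by push_cast; ring
      rw [this, zpow_natCast]
    have h2 : tt ^ s ≠ 0 := pow_ne_zero _ ht
    calc (N : K) * ((tt ^ s * N)⁻¹ * AA ^ ep) * (tt ^ s * AA ^ e)
        = (AA ^ ep * AA ^ e) * ((tt ^ s * N)⁻¹ * (tt ^ s * N)) := by ring
      _ = AA ^ 2 := by rw [h1, inv_mul_cancel₀ (mul_ne_zero h2 hN'), mul_one]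
  have hL : (N : K) * RR p s N ep f 0 * (tt ^ s * AA ^ e) = QQ (7 * m) (ZZ p φ) := by
    rw [← hZ, RR]
    have h4 : (ee 0)⁻¹ = (1 : K) := by rw [ee_0, inv_one]
    rw [h4]
    linear_combination (ee 0 * ev tt (p 0 0) * psi (f 0) + ee 1 * ev tt (p 0 1) * psi (f 1)
      + ee 2 * ev tt (p 0 2) * psi (f 2) + ee 3 * ev tt (p 0 3) * psi (f 3)) * hw
  have h5 : tt ^ s * AA ^ e ≠ 0 := mul_ne_zero (pow_ne_zero _ ht) (pow_ne_zero _ hA)
  apply mul_right_cancel₀ h5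
  rw [hL, tt_QQ, QQ_pow, AA_eq, ← QQ_zero' aP, QQ_pow, QQ_mul, QQ_mul, WW]
  have h6 : (uI ^ s * (aI ^ e * ZZ p φ)) * (uP ^ s * aP ^ e) = ZZ p φ := by
    have a1 : uP ^ s * uI ^ s = 1 := by rw [← mul_pow, uP_uI, one_pow]
    have a2 : aP ^ e * aI ^ e = 1 := by rw [← mul_pow, aP_aI, one_pow]
    calc (uI ^ s * (aI ^ e * ZZ p φ)) * (uP ^ s * aP ^ e)
        = (uP ^ s * uI ^ s) * (aP ^ e * aI ^ e) * ZZ p φ := by ring
      _ = ZZ p φ := by rw [a1, a2]; ring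
  rw [h6]
  congr 1
  ring

/-- the numerator, truncated -/
def ZL (p : ℕ → ℕ → List ℤ) (c : ℕ → ℤ) : List ℤ :=
  addL (addL (addL (mT (mT (powT (mT (powT peL 7) [1]) 2) (evT tL (p 0 0))) [c 0])
    (mT (mT (mT thL (mT (powT peL 7) [1])) (evT tL (p 0 1))) [c 1]))
    (mT (mT (powT thL 2) (evT tL (p 0 2))) [c 2])) (mT (evT tL (p 0 3)) [c 3])

/-- the row, truncated -/
def WL (p : ℕ → ℕ → List ℤ) (s e : ℕ) (c : ℕ → ℤ) : List ℤ :=
  mT (powT (powT (mT peL [1]) 4) s) (mT (powT (mT (powT piL 7) [1]) e) (ZL p c))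

theorem cg_WW (hR : Rels) (p : ℕ → ℕ → List ℤ) (s e : ℕ) (φ : ℕ → PowerSeries ℂ) (c : ℕ → ℤ)
    (hc : ∀ i, (φ i).coeff 0 = c i) : Cg (WW p s e φ) (WL p s e c) := by
  refine (cg_uI.pow s).mul ((cg_aI.pow e).mul ?_)
  have hth := cg_thP hR
  exact (((((cg_aP.pow 2).mul (cg_tP.evl _)).mul (Cg.subq (hc 0))).add
    (((hth.mul cg_aP).mul (cg_tP.evl _)).mul (Cg.subq (hc 1)))).add
    (((hth.pow 2).mul (cg_tP.evl _)).mul (Cg.subq (hc 2)))).add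
    ((cg_tP.evl _).mul (Cg.subq (hc 3)))

/-- the leading coefficients of the derivatives -/
def cs (k m c : ℤ) : ℕ → ℤ
  | 0 => c
  | n + 1 => (m - k - 4 * n) * cs k m c n

theorem pd_coeff (k m c : ℤ) (p : PowerSeries ℂ) (h : p.coeff 0 = (c : ℂ)) (n : ℕ) :
    (pd k m p n).coeff 0 = (cs k m c n : ℂ) := by
  induction n with
  | zero => exact h
  | succ n ih =>
    have l : Lo 0 (cs k m c n : ℂ) (pd k m p n) := ⟨fun n hn => absurd hn (by omega), ih⟩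
    rw [(pd_Lo k m n l).2, cs]
    push_cast
    ring

theorem PE4_coeff (p : PowerSeries ℂ) : (PE ^ 4 * p).coeff 0 = p.coeff 0 := by
  rw [PowerSeries.coeff_zero_eq_constantCoeff_apply, map_mul, map_pow, PE_const,
    PowerSeries.coeff_zero_eq_constantCoeff_apply]
  simp

end

end Pool.Agent.V5helper12.FR
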